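import Pool.Agent.Q170.GF.Asm
import Pool.Agent.Q170.GF.TaskU
import Pool.Agent.Q170.GF.TaskUgrp
import Pool.Agent.Q170.GF.TaskUcont
import Pool.Agent.Q170.GF.TaskPhi
import Pool.Agent.Q170.GF.TaskH
import Pool.Agent.Q170.GF.TaskFixEx
import Pool.Agent.Q170.GF.TaskPhiFix
import Pool.Agent.Q170.GF.TaskEig
import Pool.Agent.Q170.GF.TaskUpos
import Pool.Agent.Q170.GF.TaskFrag
import Pool.Agent.Q170.GF.TaskMass
import Pool.Agent.Q170.GF.TaskRate
import Pool.Agent.Q170.GF.TaskStep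
import Pool.Agent.Q170.GF.TaskODE
import Pool.Agent.Q170.GF.TaskUniq
import Pool.Agent.Q170.GF.TaskPert
import Pool.Agent.Q170.GF.TaskDuhUniq
import Pool.Agent.Q170.GF.TaskGrp
import Pool.Agent.Q170.GF.TaskGen
import Pool.Agent.Q170.GF.TaskFix
import Pool.Agent.Q170.GF.TaskRankOne
import Pool.Agent.Q170.GF.TaskCompact
import Pool.Agent.Q170.GF.TaskVolt
import Pool.Agent.Q170.GF.TaskVpos
import Pool.Agent.Q170.GF.TaskEss
import Pool.Agent.Q170.GF.TaskRad

/-!
# MP_bbd370_an: a growth-fragmentation semigroup with bounded fragmentation rate and a spectral gap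

The example is `r x = x`, `a = 2`, `b x y = y / x` for `x < 1 < y` and `0` otherwise.
-/

namespace Pool.Agent.Results.MP_bbd370_an.BoundedRateGap
open MeasureTheory Set Filter Topology Pool.Agent.Q170.GF

/-- The bounded operators on `X₁`. -/
abbrev Op : Type := X1 →L[ℝ] X1

/-- `T f` -/
noncomputable def app (T : Op) (f : X1) : X1 := T f

/-- `f x` (for a representative of `f`) -/
noncomputable def val (f : X1) (x : ℝ) : ℝ := f x

/-- `f ≥ 0` almost everywhere -/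
def Pos (f : X1) : Prop := 0 ≤ f

/-- `k + l` -/
noncomputable def sum (k l : X1) : X1 := k + l

/-- `V` is a `C₀`-semigroup on `X₁`. -/
def Semi (V : ℝ → Op) : Prop := IsC0 V

/-- `f` is in the domain of the generator of `V` and `g` is the value of the generator at `f`. -/
def InGen (V : ℝ → Op) (f g : X1) : Prop := Gen V f g

/-- The essential spectral radius of `T`. -/
noncomputable def ressX (T : Op) : ℝ := essRad T

/-- The spectral radius of `T`. -/
noncomputable def radX (T : Op) : ℝ := rad T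

/-- The growth rate: positive, `1/r` locally integrable. -/
def RatePos (d : Data) : Prop :=
  (∀ x, 0 < x → 0 < d.r x) ∧ LocallyIntegrableOn (fun x => 1 / d.r x) (Ioi 0)

/-- The integrals of `1/r` over `(0,1)` and over `(1,∞)` are infinite. -/
def RateEnds (d : Data) : Prop :=
  (∫⁻ x in Ioc (0 : ℝ) 1, ENNReal.ofReal (1 / d.r x) = ⊤) ∧
    ∫⁻ x in Ioi (1 : ℝ), ENNReal.ofReal (1 / d.r x) = ⊤

/-- `a` and `b` are measurable and nonnegative. -/
def Nonneg (d : Data) : Prop :=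
  Measurable d.a ∧ (∀ x, 0 < x → 0 ≤ d.a x) ∧ Measurable (Function.uncurry d.b) ∧
    ∀ x y, 0 < x → x < y → 0 ≤ d.b x y

/-- `∫_0^y x b(x,y) dx ≤ y` -/
def Mass (d : Data) : Prop :=
  ∀ y, 0 < y → ∫⁻ x in Ioo 0 y, ENNReal.ofReal (x * d.b x y) ≤ ENNReal.ofReal y

/-- `X y t` in `(0,y]` solves `∫_{X(y,t)}^y dτ / r(τ) = t`. -/
def Flow (d : Data) : Prop :=
  ∀ y t, 0 < y → 0 ≤ t → 0 < d.X y t ∧ d.X y t ≤ y ∧ ∫ τ in d.X y t..y, 1 / d.r τ = t

/-- The hypotheses of the problem on the data. -/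
def Admissible (d : Data) : Prop := RatePos d ∧ RateEnds d ∧ Nonneg d ∧ Mass d ∧ Flow d

/-- The formula of `U_0^{(a)}`. -/
def TransportFormula (d : Data) (U : ℝ → Op) : Prop :=
  ∀ t, 0 ≤ t → ∀ f : X1, ∀ᵐ y ∂mu, val (app (U t) f) y =
    Real.exp (-∫ p in d.X y t..y, d.a p / d.r p) * val f (d.X y t) * deriv (fun z => d.X z t) y

/-- `l = B f`, `B f x = ∫_x^∞ a(y) b(x,y) f(y) dy`. -/
def FragFormula (d : Data) (f l : X1) : Prop :=
  ∀ᵐ x ∂mu, val l x = ∫ y in Ioi x, d.a y * d.b x y * val f y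

/-- `V` is a positive `C₀`-semigroup whose generator is `T_0^{(a)} + B` on the domain of the generator
`T_0^{(a)}` of `U`. -/
def Generated (d : Data) (U V : ℝ → Op) : Prop :=
  Semi V ∧ (∀ t, 0 ≤ t → ∀ f, Pos f → Pos (app (V t) f)) ∧
  ∀ f g : X1, InGen V f g ↔ ∃ k l : X1, InGen U f k ∧ FragFormula d f l ∧ g = sum k l

/-- Spectral gap: `ω₁ < ω₂`, and `r_ess (V t) ≤ e^{ω₁ t}`, `e^{ω₂ t} ≤ r (V t)` for all `t > 0`. -/
def Gap (V : ℝ → Op) (ω₁ ω₂ : ℝ) : Prop :=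
  ω₁ < ω₂ ∧ ∀ t, 0 < t → ressX (V t) ≤ Real.exp (ω₁ * t) ∧ Real.exp (ω₂ * t) ≤ radX (V t)

/-- **There are admissible data with a bounded fragmentation rate `a` whose growth-fragmentation
semigroup `V` on `X₁` has a spectral gap: `ω_ess(V) ≤ -1 < 0 ≤ ω(V)`.** -/
theorem result : ∃ d : Data, Admissible d ∧ (∃ C, ∀ x, 0 < x → d.a x ≤ C) ∧
    ∃ U V : ℝ → Op, Semi U ∧ TransportFormula d U ∧ Generated d U V ∧ Gap V (-1) 0 := by
  obtain ⟨d, hA, hC, U, V, hU, hV, hG⟩ := assemble TU.main TUgrp.main TUcont.main TPhi.main TH.main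
    TFixEx.main TPhiFix.main TEig.main TUpos.main TFrag.main TMass.main TRate.main TStep.main
    TODE.main TUniq.main TPert.main TDuhUniq.main TGrp.main TGen.main TFix.main TRankOne.main
    TCompact.main TVolt.main TVpos.main TEss.main TRad.main
  exact ⟨d, ⟨⟨hA.r_pos, hA.r_int⟩, ⟨hA.r_zero, hA.r_infty⟩, ⟨hA.a_meas, hA.a_nonneg, hA.b_meas,
    hA.b_nonneg⟩, hA.mass, hA.flow⟩, hC, U, V, hU.1, hU.2, hV, hG⟩

end Pool.Agent.Results.MP_bbd370_an.BoundedRateGap
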